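import Mathlib

/-!
# Integrality and divisibility of Hankel determinants of `H_d(n, x)`

`L` is the `ℤ[x]`-linear functional on `ℤ[x][y]` with `L(y^n) = H_d(n,x)`.  It satisfies
`L((y - x) f) = L(D^{d-1} f)`.  For the monic Appell polynomials `p_i` with
`p_{i+1} = (y - x) p_i - (i)_{d-1} p_{i-d+1}` one gets a recursion for `L(p_i p_j)` which shows
that these are constants divisible by `j!`.
-/

namespace Pool.Agent.Results.MP_ecbd44_co.HankelDiv

open Polynomial Finset

/-- The polynomials `H_d(n,x) ∈ ℤ[x]`: `H_d(n,x) = x^n` for `n < d` and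
`H_d(n,x) = x H_d(n-1,x) + (n-1)(n-2)⋯(n-d+1) H_d(n-d,x)` for `n ≥ d`. -/
noncomputable def H (d : ℕ) (n : ℕ) : ℤ[X] :=
  if h : n < d ∨ d = 0 then X ^ n
  else X * H d (n - 1) + C (∏ i ∈ Finset.Icc 1 (d - 1), ((n : ℤ) - (i : ℤ))) * H d (n - d)
termination_by n
decreasing_by all_goals omega

/-- The Hankel matrix `[H_d(i+j, x)]_{0 ≤ i,j ≤ n-1}`. -/
noncomputable def hankel (d n : ℕ) : Matrix (Fin n) (Fin n) ℤ[X] :=
  Matrix.of fun i j => H d ((i : ℕ) + (j : ℕ))

lemma prod_desc (n k : ℕ) :
    (∏ i ∈ Finset.Icc 1 k, (((n + 1 : ℕ) : ℤ) - (i : ℤ))) = (n.descFactorial k : ℤ) := by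
  induction k with
  | zero => simp
  | succ k ih =>
    rw [Finset.prod_Icc_succ_top (by omega), ih, Nat.descFactorial_succ]
    push_cast
    rcases le_or_gt k n with h | h
    · rw [Nat.cast_sub h]
      ring
    · have : n.descFactorial k = 0 := Nat.descFactorial_eq_zero_iff_lt.mpr h
      rw [this]
      simp

lemma H_lt (m n : ℕ) (h : n < m + 1) : H (m + 1) n = X ^ n := by
  rw [H, dif_pos (Or.inl h)]

/-- Uniform recursion; the last term vanishes automatically when `n < m`. -/
lemma H_succ (m n : ℕ) (hm : 1 ≤ m) :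
    H (m + 1) (n + 1) = X * H (m + 1) n + C (n.descFactorial m : ℤ) * H (m + 1) (n - m) := by
  rcases lt_or_ge (n + 1) (m + 1) with h | h
  · rw [H_lt m (n + 1) h, H_lt m n (by omega), Nat.descFactorial_eq_zero_iff_lt.mpr (by omega)]
    simp [pow_succ, mul_comm]
  · rw [H, dif_neg (by omega)]
    have e1 : n + 1 - 1 = n := by omega
    have e2 : n + 1 - (m + 1) = n - m := by omega
    have e3 : m + 1 - 1 = m := by omega
    rw [e1, e2, e3, prod_desc]

/-- The linear functional `L(y^n) = H_d(n,x)`. -/
noncomputable def L (d : ℕ) : (ℤ[X])[X] →ₗ[ℤ[X]] ℤ[X] :=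
  Polynomial.lsum (fun n => LinearMap.mulRight ℤ[X] (H d n))

lemma L_monomial (d n : ℕ) (a : ℤ[X]) : L d (monomial n a) = a * H d n := by
  unfold L
  rw [Polynomial.lsum_apply, Polynomial.sum_monomial_index]
  · rfl
  · simp

lemma L_C_mul (d : ℕ) (a : ℤ[X]) (f : (ℤ[X])[X]) : L d (C a * f) = a * L d f := by
  rw [← Polynomial.smul_eq_C_mul, map_smul, smul_eq_mul]

lemma L_rec (m : ℕ) (hm : 1 ≤ m) (f : (ℤ[X])[X]) :
    L (m + 1) ((X - C X) * f) = L (m + 1) (derivative^[m] f) := by
  induction f using Polynomial.induction_on' with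
  | add p q hp hq =>
    rw [mul_add, map_add, hp, hq, iterate_map_add, map_add]
  | monomial n a =>
    have h1 : (X - C X) * (monomial n a : (ℤ[X])[X]) = monomial (n + 1) a - C X * monomial n a := by
      rw [sub_mul, X_mul_monomial]
    rw [h1, map_sub, L_C_mul, L_monomial, L_monomial, H_succ m n hm]
    have h2 : derivative^[m] (monomial n a : (ℤ[X])[X]) =
        C a * (C (n.descFactorial m : ℤ[X]) * monomial (n - m) 1) := by
      rw [← C_mul_X_pow_eq_monomial, Polynomial.iterate_derivative_C_mul,
        Polynomial.iterate_derivative_X_pow_eq_C_mul, ← C_mul_X_pow_eq_monomial]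
      simp
    rw [h2, L_C_mul, L_C_mul, L_monomial]
    have h3 : (C (n.descFactorial m : ℤ) : ℤ[X]) = ((n.descFactorial m : ℕ) : ℤ[X]) := by
      simp
    rw [h3]
    ring

/-- The monic polynomials `p_i` in `y` over `ℤ[x]`. -/
noncomputable def p (m : ℕ) : ℕ → (ℤ[X])[X]
  | 0 => 1
  | (i + 1) => (X - C X) * p m i - (i.descFactorial m : (ℤ[X])[X]) * p m (i - m)

lemma p_succ (m i : ℕ) : p m (i + 1) =
    (X - C X) * p m i - (i.descFactorial m : (ℤ[X])[X]) * p m (i - m) := by
  rw [p]

lemma p_zero (m : ℕ) : p m 0 = 1 := by rw [p]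

lemma p_monic (m i : ℕ) : (p m i).Monic ∧ (p m i).natDegree = i := by
  induction i using Nat.strong_induction_on with
  | _ i ih =>
    rcases i with _ | i
    · rw [p_zero]
      exact ⟨monic_one, natDegree_one⟩
    · rw [p_succ]
      obtain ⟨h1, h2⟩ := ih i (by omega)
      obtain ⟨h3, h4⟩ := ih (i - m) (by omega)
      have hmon : ((X - C X : (ℤ[X])[X]) * p m i).Monic := (monic_X_sub_C _).mul h1
      have hdeg : ((X - C X : (ℤ[X])[X]) * p m i).natDegree = i + 1 := by
        rw [(monic_X_sub_C _).natDegree_mul h1, natDegree_X_sub_C, h2]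
        ring
      have hlt : ((i.descFactorial m : (ℤ[X])[X]) * p m (i - m)).degree <
          ((X - C X : (ℤ[X])[X]) * p m i).degree := by
        rw [degree_eq_natDegree hmon.ne_zero, hdeg]
        refine lt_of_le_of_lt (degree_le_natDegree) ?_
        have h5 : ((i.descFactorial m : (ℤ[X])[X]) * p m (i - m)).natDegree ≤ i := by
          have h6 : ((i.descFactorial m : (ℤ[X])[X])) = C (i.descFactorial m : ℤ[X]) := by simp
          rw [h6]
          refine (natDegree_C_mul_le _ _).trans ?_
          rw [h4]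
          omega
        exact_mod_cast Nat.lt_succ_of_le h5
      have hmon' := hmon.sub_of_left hlt
      refine ⟨hmon', ?_⟩
      have hd := degree_sub_eq_left_of_degree_lt hlt
      rw [natDegree_eq_of_degree_eq hd, hdeg]

lemma p_appell (m i : ℕ) : derivative (p m (i + 1)) = ((i + 1 : ℕ) : (ℤ[X])[X]) * p m i := by
  induction i using Nat.strong_induction_on with
  | _ i ih =>
    rcases i with _ | i
    · rw [p_succ, p_zero]
      simp only [mul_one, derivative_sub, derivative_X, derivative_C, sub_zero, zero_add,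
        Nat.cast_one, Nat.zero_sub, p_zero, derivative_natCast]
    · rw [p_succ m (i + 1)]
      rw [derivative_sub, derivative_mul, derivative_mul, derivative_sub, derivative_X,
        derivative_C, sub_zero, one_mul, ih i (by omega), derivative_natCast, zero_mul, zero_add]
      rcases lt_or_ge (i + 1) m with h | h
      · have e1 : (i + 1).descFactorial m = 0 := Nat.descFactorial_eq_zero_iff_lt.mpr h
        have e2 : i.descFactorial m = 0 := Nat.descFactorial_eq_zero_iff_lt.mpr (by omega)
        rw [e1, p_succ m i, e2]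
        push_cast
        ring
      · rcases Nat.eq_or_lt_of_le h with h' | h'
        · -- i + 1 = m
          have e0 : i + 1 - m = 0 := by omega
          have e2 : i.descFactorial m = 0 := Nat.descFactorial_eq_zero_iff_lt.mpr (by omega)
          rw [e0, p_zero, p_succ m i, e2]
          simp only [derivative_one, mul_zero, sub_zero, Nat.cast_zero, zero_mul]
          push_cast
          ring
        · obtain ⟨k, hk⟩ : ∃ k, i + 1 - m = k + 1 := ⟨i - m, by omega⟩
          have hk' : i - m = k := by omega
          rw [hk, ih k (by omega), p_succ m i, hk']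
          have e3 : (i + 1).descFactorial m * (k + 1) = (i + 1) * i.descFactorial m := by
            have h7 := Nat.succ_descFactorial i m
            -- (i + 1 - m) * (i+1).descFactorial m = (i+1) * i.descFactorial m
            rw [hk] at h7
            rw [mul_comm]
            exact h7
          have e4 : (((i + 1).descFactorial m : ℕ) : (ℤ[X])[X]) * ((k + 1 : ℕ) : (ℤ[X])[X]) =
              ((i + 1 : ℕ) : (ℤ[X])[X]) * ((i.descFactorial m : ℕ) : (ℤ[X])[X]) := by
            exact_mod_cast congrArg (Nat.cast : ℕ → (ℤ[X])[X]) e3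
          push_cast at e4 ⊢
          linear_combination (-(p m k)) * e4

lemma p_iter (m i k : ℕ) :
    derivative^[k] (p m i) = (i.descFactorial k : (ℤ[X])[X]) * p m (i - k) := by
  induction k with
  | zero => simp
  | succ k ih =>
    rw [Function.iterate_succ_apply', ih, derivative_mul, derivative_natCast, zero_mul, zero_add]
    rcases Nat.eq_zero_or_pos (i - k) with h | h
    · rw [h, p_zero, derivative_one, mul_zero, Nat.descFactorial_succ, h]
      simp
    · obtain ⟨l, hl⟩ : ∃ l, i - k = l + 1 := ⟨i - k - 1, by omega⟩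
      have hl' : i - (k + 1) = l := by omega
      rw [hl, p_appell, hl', Nat.descFactorial_succ, hl]
      push_cast
      ring

/-- The key recursion for `N_{i,j} = L(p_i p_j)`. -/
lemma N_rec (m : ℕ) (hm : 1 ≤ m) (i j : ℕ) :
    L (m + 1) (p m (i + 1) * p m j) =
      ∑ k ∈ Finset.range m, ((m.choose (k + 1) * i.descFactorial (m - (k + 1)) *
        j.descFactorial (k + 1) : ℕ) : ℤ[X]) *
          L (m + 1) (p m (i - (m - (k + 1))) * p m (j - (k + 1))) := by
  have h1 : p m (i + 1) * p m j = (X - C X) * (p m i * p m j) -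
      C (i.descFactorial m : ℤ[X]) * (p m (i - m) * p m j) := by
    rw [p_succ]
    simp only [map_natCast]
    ring
  rw [h1, map_sub, L_rec m hm, L_C_mul, Polynomial.iterate_derivative_mul, Finset.sum_range_succ',
    map_add, map_sum]
  have h2 : L (m + 1) (m.choose 0 • (derivative^[m - 0] (p m i) * derivative^[0] (p m j))) =
      (i.descFactorial m : ℤ[X]) * L (m + 1) (p m (i - m) * p m j) := by
    rw [Nat.choose_zero_right, one_smul, Nat.sub_zero, p_iter, Function.iterate_zero_apply,
      ← L_C_mul]
    simp only [map_natCast]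
    ring_nf
  rw [h2, add_sub_cancel_right]
  refine Finset.sum_congr rfl fun k _ => ?_
  rw [p_iter, p_iter, ← L_C_mul]
  congr 1
  simp only [map_natCast, nsmul_eq_mul]
  push_cast
  ring

/-- `N_{i,j}` is a constant divisible by `j!`. -/
lemma N_const (m : ℕ) (hm : 1 ≤ m) (i : ℕ) : ∀ j : ℕ, ∃ c : ℤ,
    L (m + 1) (p m i * p m j) = C ((j.factorial : ℤ) * c) := by
  have hL0 : L (m + 1) (p m 0 * p m 0) = 1 := by
    rw [p_zero, one_mul]
    have := L_monomial (m + 1) 0 1
    rw [one_mul, H_lt m 0 (by omega), pow_zero] at this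
    exact this
  have hpos : ∀ j, L (m + 1) (p m (j + 1) * p m 0) = 0 := by
    intro j
    rw [N_rec m hm]
    refine Finset.sum_eq_zero fun k _ => ?_
    have : (0 : ℕ).descFactorial (k + 1) = 0 := Nat.descFactorial_eq_zero_iff_lt.mpr (by omega)
    rw [this]
    simp
  induction i using Nat.strong_induction_on with
  | _ i ih =>
    intro j
    rcases i with _ | i
    · rcases j with _ | j
      · exact ⟨1, by rw [hL0]; simp⟩
      · exact ⟨0, by rw [mul_comm, hpos]; simp⟩
    · rw [N_rec m hm]
      have hterm : ∀ k : ℕ, ∃ c : ℤ, k ∈ Finset.range m →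
          ((m.choose (k + 1) * i.descFactorial (m - (k + 1)) *
          j.descFactorial (k + 1) : ℕ) : ℤ[X]) *
          L (m + 1) (p m (i - (m - (k + 1))) * p m (j - (k + 1))) =
          C ((j.factorial : ℤ) * c) := by
        intro k
        obtain ⟨c, hc⟩ := ih (i - (m - (k + 1))) (by omega) (j - (k + 1))
        rcases lt_or_ge j (k + 1) with h | h
        · refine ⟨0, fun _ => ?_⟩
          rw [Nat.descFactorial_eq_zero_iff_lt.mpr h]
          simp
        · refine ⟨(m.choose (k + 1) * i.descFactorial (m - (k + 1)) : ℕ) * c, fun _ => ?_⟩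
          rw [hc]
          have hf : ((j - (k + 1)).factorial : ℤ) * (j.descFactorial (k + 1) : ℤ) =
              (j.factorial : ℤ) := by
            exact_mod_cast Nat.factorial_mul_descFactorial h
          rw [← hf]
          have hcast : ((m.choose (k + 1) * i.descFactorial (m - (k + 1)) *
              j.descFactorial (k + 1) : ℕ) : ℤ[X]) = C ((m.choose (k + 1) *
              i.descFactorial (m - (k + 1)) * j.descFactorial (k + 1) : ℕ) : ℤ) := by
            simp
          rw [hcast, ← C_mul]
          congr 1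
          push_cast
          ring
      choose c hc using hterm
      refine ⟨∑ k ∈ Finset.range m, c k, ?_⟩
      rw [Finset.sum_congr rfl hc, Finset.mul_sum, map_sum]

/-- The coefficient matrix of the `p_i`. -/
noncomputable def P (m n : ℕ) : Matrix (Fin n) (Fin n) ℤ[X] :=
  Matrix.of fun i k => (p m i).coeff k

lemma P_det (m n : ℕ) : (P m n).det = 1 := by
  rw [Matrix.det_of_isLowerTriangular]
  · refine Finset.prod_eq_one fun i _ => ?_
    obtain ⟨h1, h2⟩ := p_monic m i
    simp only [P, Matrix.of_apply]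
    have h3 := h1.coeff_natDegree
    rw [h2] at h3
    exact h3
  · intro i j hij
    simp only [P, Matrix.of_apply]
    refine coeff_eq_zero_of_natDegree_lt ?_
    rw [(p_monic m i).2]
    exact_mod_cast hij

lemma gram (m n : ℕ) : P m n * hankel (m + 1) n * (P m n).transpose =
    Matrix.of fun i j : Fin n => L (m + 1) (p m i * p m j) := by
  ext1 i j
  have hexp : ∀ i : Fin n, p m i = ∑ k : Fin n, monomial (k : ℕ) ((p m i).coeff k) := by
    intro i
    have h := as_sum_range' (p m i) n (by rw [(p_monic m i).2]; exact i.2)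
    rw [Finset.sum_range] at h
    exact h
  have h1 : L (m + 1) (p m i * p m j) =
      ∑ l : Fin n, ∑ k : Fin n, (p m i).coeff k * H (m + 1) (k + l) * (p m j).coeff l := by
    conv_lhs => rw [hexp i, hexp j]
    rw [Finset.mul_sum, map_sum]
    refine Finset.sum_congr rfl fun l _ => ?_
    rw [Finset.sum_mul, map_sum]
    refine Finset.sum_congr rfl fun k _ => ?_
    rw [monomial_mul_monomial, L_monomial]
    ring
  rw [Matrix.of_apply, h1, Matrix.mul_apply]
  refine Finset.sum_congr rfl fun l _ => ?_
  rw [Matrix.mul_apply, Finset.sum_mul]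
  rfl

/-- **Theorem.** For all `d ≥ 2` and `n ≥ 1` the Hankel determinant `det [H_d(i+j,x)]` is a
constant integer, divisible by `∏_{i=0}^{n-1} i!`. -/
theorem result : ∀ d n : ℕ, 2 ≤ d → 1 ≤ n → ∃ c : ℤ,
    (hankel d n).det = C c ∧ (∏ i ∈ Finset.range n, (i.factorial : ℤ)) ∣ c := by
  intro d n hd _
  obtain ⟨m, rfl⟩ : ∃ m, d = m + 1 := ⟨d - 1, by omega⟩
  have hm : 1 ≤ m := by omega
  have h1 : (hankel (m + 1) n).det =
      (Matrix.of fun i j : Fin n => L (m + 1) (p m i * p m j)).det := by
    rw [← gram, Matrix.det_mul, Matrix.det_mul, Matrix.det_transpose, P_det]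
    ring
  choose c hc using fun i j : ℕ => N_const m hm i j
  have h2 : (Matrix.of fun i j : Fin n => L (m + 1) (p m i * p m j)) =
      Matrix.of fun i j : Fin n => (C ((j : ℕ).factorial : ℤ)) *
        (Matrix.of fun i j : Fin n => (C (c i j) : ℤ[X])) i j := by
    ext1 i j
    simp only [Matrix.of_apply]
    rw [hc, C_mul]
  have h3 : (Matrix.of fun i j : Fin n => (C (c i j) : ℤ[X])).det =
      C (Matrix.of fun i j : Fin n => c i j).det := by
    rw [RingHom.map_det]
    rfl
  refine ⟨(∏ i ∈ Finset.range n, (i.factorial : ℤ)) * (Matrix.of fun i j : Fin n => c i j).det,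
    ?_, Dvd.intro _ rfl⟩
  rw [h1, h2, Matrix.det_mul_row, h3, C_mul, Finset.prod_range, map_prod]

end Pool.Agent.Results.MP_ecbd44_co.HankelDiv
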